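import Pool.Agent.Helper15.FC.St2

set_option autoImplicit false

open Polynomial

namespace Pool.Agent.Helper53.FC

open Pool.Agent.Helper15.FC

theorem hIRB (hPTS : StPTS) (hEXF : StEXF) : StIRB := by
  intro F _ _ d hd
  obtain ⟨L, _, _, _, hL⟩ := hEXF F d hd
  have hCM : CM (fun _ : F[X] => (1 : ℂ)) := by
    refine ⟨rfl, fun f g _ _ => (mul_one (1 : ℂ)).symm, fun f _ => ?_⟩
    simp
  have h := hPTS F L d (fun _ : F[X] => (1 : ℂ)) hd hL hCM
  have h1 : ∑ a : L, (1 : ℂ) = ((Fintype.card F ^ d : ℕ) : ℂ) := by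
    rw [Finset.sum_const, Finset.card_univ, hL, nsmul_eq_mul, mul_one]
  have h2 : Psi (fun _ : F[X] => (1 : ℂ)) d
      = ((∑ e ∈ d.divisors, e * (Ir F e).card : ℕ) : ℂ) := by
    unfold Psi
    push_cast
    refine Finset.sum_congr rfl fun e _ => ?_
    congr 1
    rw [Finset.sum_congr rfl (fun P _ => one_pow (d / e)), Finset.sum_const, nsmul_eq_mul, mul_one]
  have h3 : Fintype.card F ^ d = ∑ e ∈ d.divisors, e * (Ir F e).card := by
    have h4 : ((Fintype.card F ^ d : ℕ) : ℂ) = ((∑ e ∈ d.divisors, e * (Ir F e).card : ℕ) : ℂ) := by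
      rw [← h1, ← h2]
      exact h
    exact_mod_cast h4
  have h5 : d * (Ir F d).card ≤ Fintype.card F ^ d := by
    rw [h3]
    exact Finset.single_le_sum (f := fun e => e * (Ir F e).card) (fun i _ => Nat.zero_le _)
      (Nat.mem_divisors.2 ⟨dvd_refl d, by omega⟩)
  unfold qr
  exact_mod_cast h5

end Pool.Agent.Helper53.FC
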