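import Pool.Agent.Helper15.FC.St3

set_option autoImplicit false

open Polynomial

namespace Pool.Agent.Helper53.FC

open Pool.Agent.Helper15.FC

theorem tal_eval (p : ℝ[X]) (k n : ℕ) (hk : 1 ≤ k) (hp : p.natDegree ≤ k - 1) :
    |p.eval (n : ℝ)| ≤ ∑ a ∈ Finset.range k, |p.coeff a| * ((n : ℝ) + 1) ^ k := by
  rw [Polynomial.eval_eq_sum_range' (n := k) (by omega)]
  refine (Finset.abs_sum_le_sum_abs _ _).trans (Finset.sum_le_sum fun a ha => ?_)
  rw [abs_mul]
  refine mul_le_mul_of_nonneg_left ?_ (abs_nonneg _)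
  have h0 : (0 : ℝ) ≤ n := Nat.cast_nonneg n
  rw [abs_of_nonneg (pow_nonneg h0 _)]
  calc (n : ℝ) ^ a ≤ ((n : ℝ) + 1) ^ a := pow_le_pow_left₀ h0 (by linarith) _
    _ ≤ ((n : ℝ) + 1) ^ k :=
        pow_le_pow_right₀ (by linarith) (Finset.mem_range.1 ha).le

theorem hTAL (hTLB : StTLB) : StTAL := by
  intro F _ _ k l P P' hk hl hP hP'
  obtain ⟨C, hC, hT⟩ := hTLB F k l P P' hk hl hP hP'
  have hq : (2 : ℝ) ≤ qr F := by
    unfold qr
    exact_mod_cast (Fintype.one_lt_card : 1 < Fintype.card F)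
  have hq0 : (0 : ℝ) < qr F := by linarith
  have hq1 : (1 : ℝ) < qr F := by linarith
  set x : ℝ := qr F ^ (-(3 / 4 : ℝ)) with hx
  have hx0 : 0 < x := Real.rpow_pos_of_pos hq0 _
  have hx1 : x < 1 := Real.rpow_lt_one_of_one_lt_of_neg hq1 (by norm_num)
  have hxi : ∀ i : ℕ, qr F ^ (-(3 / 4 : ℝ) * i) = x ^ i := by
    intro i
    rw [hx, Real.rpow_mul hq0.le, Real.rpow_natCast]
  have hk0 : (0 : ℝ) < k := by exact_mod_cast hk
  have hl0 : (0 : ℝ) < l := by exact_mod_cast hl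
  have hTi : ∀ (h : F[X]) (n i : ℕ), h ≠ 0 →
      |Ti P P' n h i| ≤ (k * l * C * tau h * ((n : ℝ) + 1) ^ (k + l)) * x ^ i := by
    intro h n i hh
    unfold Ti
    have hn0 : (0 : ℝ) ≤ (n : ℝ) + 1 := by positivity
    calc |∑ r ∈ Mn F i, (P r).eval (n : ℝ) * (P' r).eval (n : ℝ) * (cram r h : ℝ)|
        ≤ ∑ r ∈ Mn F i, |(P r).eval (n : ℝ) * (P' r).eval (n : ℝ) * (cram r h : ℝ)| :=
          Finset.abs_sum_le_sum_abs _ _
      _ ≤ ∑ r ∈ Mn F i, ∑ a ∈ Finset.range k, ∑ b ∈ Finset.range l,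
            (((n : ℝ) + 1) ^ (k + l)) *
              (|(P r).coeff a| * |(P' r).coeff b| * |(cram r h : ℝ)|) := by
          refine Finset.sum_le_sum fun r hr => ?_
          have hrm := (mem_Mn.1 hr).1
          rw [abs_mul, abs_mul]
          have h1 := tal_eval (P r) k n hk (hP r hrm).1
          have h2 := tal_eval (P' r) l n hl (hP' r hrm).1
          have h3 : |(P r).eval (n : ℝ)| * |(P' r).eval (n : ℝ)| ≤
              (∑ a ∈ Finset.range k, |(P r).coeff a| * ((n : ℝ) + 1) ^ k) *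
                (∑ b ∈ Finset.range l, |(P' r).coeff b| * ((n : ℝ) + 1) ^ l) :=
            mul_le_mul h1 h2 (abs_nonneg _) ((abs_nonneg _).trans h1)
          refine (mul_le_mul_of_nonneg_right h3 (abs_nonneg _)).trans (le_of_eq ?_)
          rw [Finset.sum_mul_sum, Finset.sum_mul]
          refine Finset.sum_congr rfl fun a _ => ?_
          rw [Finset.sum_mul]
          refine Finset.sum_congr rfl fun b _ => ?_
          rw [pow_add]
          ring
      _ = ∑ a ∈ Finset.range k, ∑ b ∈ Finset.range l, (((n : ℝ) + 1) ^ (k + l)) *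
            ∑ r ∈ Mn F i, (|(P r).coeff a| * |(P' r).coeff b| * |(cram r h : ℝ)|) := by
          rw [Finset.sum_comm]
          refine Finset.sum_congr rfl fun a _ => ?_
          rw [Finset.sum_comm]
          refine Finset.sum_congr rfl fun b _ => ?_
          rw [Finset.mul_sum]
      _ ≤ ∑ a ∈ Finset.range k, ∑ b ∈ Finset.range l, (((n : ℝ) + 1) ^ (k + l)) *
            (C * tau h * x ^ i) := by
          refine Finset.sum_le_sum fun a _ => Finset.sum_le_sum fun b _ => ?_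
          refine mul_le_mul_of_nonneg_left ?_ (pow_nonneg hn0 _)
          have := hT h a b i hh
          rwa [hxi] at this
      _ = (k * l * C * tau h * ((n : ℝ) + 1) ^ (k + l)) * x ^ i := by
          rw [Finset.sum_const, Finset.sum_const, Finset.card_range, Finset.card_range,
            nsmul_eq_mul, nsmul_eq_mul]
          ring
  refine ⟨k * l * C / (1 - x), by
    have : 0 < 1 - x := by linarith
    positivity, ?_⟩
  intro h n Q hh
  have hgs : Summable (fun i : ℕ =>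
      (k * l * C * tau h * ((n : ℝ) + 1) ^ (k + l)) * x ^ i) :=
    (summable_geometric_of_lt_one hx0.le hx1).mul_left _
  have hs : Summable (Ti P P' n h) :=
    Summable.of_norm_bounded hgs (fun i => by
      rw [Real.norm_eq_abs]
      exact hTi h n i hh)
  refine ⟨hs, ?_⟩
  have hspl := hs.sum_add_tsum_nat_add (Q + 1)
  have h1 : ∑ i ∈ Finset.range (Q + 1), Ti P P' n h i - ∑' i : ℕ, Ti P P' n h i =
      -∑' i : ℕ, Ti P P' n h (i + (Q + 1)) := by
    rw [← hspl]
    ring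
  rw [h1, abs_neg]
  have htau : 0 ≤ tau h := by
    unfold tau
    exact Nat.cast_nonneg _
  have hx' : 0 < 1 - x := by linarith
  have h2 : ∀ i : ℕ, ‖Ti P P' n h (i + (Q + 1))‖ ≤
      (k * l * C * tau h * ((n : ℝ) + 1) ^ (k + l) * x ^ (Q + 1)) * x ^ i := by
    intro i
    rw [Real.norm_eq_abs]
    refine (hTi h n (i + (Q + 1)) hh).trans (le_of_eq ?_)
    rw [pow_add x i (Q + 1)]
    ring
  have h3 := tsum_of_norm_bounded
    ((hasSum_geometric_of_lt_one hx0.le hx1).mul_left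
      (k * l * C * tau h * ((n : ℝ) + 1) ^ (k + l) * x ^ (Q + 1))) h2
  rw [Real.norm_eq_abs] at h3
  refine h3.trans ?_
  have h4 : x ^ (Q + 1) ≤ qr F ^ (-(1 / 2 : ℝ) * Q) := by
    rw [← hxi]
    refine Real.rpow_le_rpow_of_exponent_le hq1.le ?_
    push_cast
    have : (0 : ℝ) ≤ Q := Nat.cast_nonneg Q
    linarith
  calc k * l * C * tau h * ((n : ℝ) + 1) ^ (k + l) * x ^ (Q + 1) * (1 - x)⁻¹
      = (k * l * C * tau h * ((n : ℝ) + 1) ^ (k + l) * (1 - x)⁻¹) * x ^ (Q + 1) := by ring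
    _ ≤ (k * l * C * tau h * ((n : ℝ) + 1) ^ (k + l) * (1 - x)⁻¹) *
          qr F ^ (-(1 / 2 : ℝ) * Q) := by
        refine mul_le_mul_of_nonneg_left h4 ?_
        have : (0 : ℝ) ≤ (1 - x)⁻¹ := (inv_pos.2 hx').le
        positivity
    _ = k * l * C / (1 - x) * tau h * ((n : ℝ) + 1) ^ (k + l) * qr F ^ (-(1 / 2 : ℝ) * Q) := by
        rw [div_eq_mul_inv]
        ring

end Pool.Agent.Helper53.FC
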